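import Mathlib

set_option autoImplicit false

/-! The second congruence of part (b), stated modulo `p^3`, fails at `p = 5`. -/

namespace Pool.Agent.Results.MP_bdd522_nt.Disproof

open Finset

/-- `T_n(b,c) = ∑_{0 ≤ j ≤ n/2} binom(n,2j) binom(2j,j) c^j b^(n-2j)`. -/
def T (b c : ℤ) (n : ℕ) : ℤ :=
  ∑ j ∈ range (n / 2 + 1), (n.choose (2 * j) : ℤ) * ((2 * j).choose j : ℤ) * c ^ j * b ^ (n - 2 * j)

/-- `u ≡ v (mod p^m)` in the ring of rationals with denominator prime to `p`. -/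
def Cong (p m : ℕ) (u v : ℚ) : Prop := ¬ p ∣ ((u - v) / (p : ℚ) ^ m).den

/-- The sum `∑_{0 ≤ k < p} (3k+1) T_k(2,3)^3 (-64)^(-k)` of part (b). -/
def S (p : ℕ) : ℚ := ∑ k ∈ range p, (3 * (k : ℚ) + 1) * ((T 2 3 k : ℤ) : ℚ) ^ 3 / (-64) ^ k

/-- The Legendre symbol `(-2/p)`. -/
def leg (p : ℕ) : ℚ := (jacobiSym (-2) p : ℤ)

theorem dvd5 : 5 ∣ ((S 5 - 5 * (-1)) / (5 : ℚ) ^ 3).den := by
  decide +kernel

theorem dvd7 : 7 ∣ ((S 7 - 7 * (-1)) / (7 : ℚ) ^ 3).den := by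
  decide +kernel

theorem dvd11 : 11 ∣ ((S 11 - 11 * 1) / (11 : ℚ) ^ 3).den := by
  decide +kernel

theorem result : ∀ p ∈ ({5, 7, 11} : Finset ℕ), ¬ Cong p 3 (S p) (p * leg p) := by
  have l5 : leg 5 = -1 := by unfold leg; norm_num
  have l7 : leg 7 = -1 := by unfold leg; norm_num
  have l11 : leg 11 = 1 := by unfold leg; norm_num
  intro p hp h
  apply h
  simp only [mem_insert, mem_singleton] at hp
  rcases hp with rfl | rfl | rfl
  · rw [l5]; exact_mod_cast dvd5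
  · rw [l7]; exact_mod_cast dvd7
  · rw [l11]; exact_mod_cast dvd11

end Pool.Agent.Results.MP_bdd522_nt.Disproof
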